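import Pool.Agent.Q268.BG.Fin

/-!
# The growth of balls in graphs without `C_{2k}`: real exponents
-/

set_option autoImplicit false

namespace Pool.Agent.Q268.BG

open Finset SimpleGraph Pool.Agent.Y384.EC

theorem main_real (k : ℕ) (hk : 1 ≤ k) (ε η : ℝ) (hε : 0 < ε) (hη : 0 < η) :
    ∃ C : ℝ, 0 < C ∧ ∃ n₀ : ℕ, ∀ (V : Type) [Finite V] (G : SimpleGraph V),
      (cycleGraph (2 * k)).Free G → n₀ ≤ Nat.card V →
      ε * (Nat.card V : ℝ) ^ (1 + 1 / (k : ℝ)) ≤ G.edgeSet.ncard →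
      ∃ K : Set V, (1 - η) * G.edgeSet.ncard ≤ (G.induce K).edgeSet.ncard ∧
        (∀ x : K, (Nat.card V : ℝ) ^ (1 / (k : ℝ)) ≤ C * ((G.induce K).neighborSet x).ncard) ∧
        (∀ x : V, ({w : V | w ∈ K ∧ G.Adj x w}.ncard : ℝ) ≤
          C * (Nat.card V : ℝ) ^ (1 / (k : ℝ))) ∧
        ∀ (x : K) (i : ℕ), i ≤ k →
          (Nat.card V : ℝ) ^ ((i : ℝ) / k) ≤ C * (nball (G.induce K) x i).ncard ∧
          ((nball (G.induce K) x i).ncard : ℝ) ≤ C * (Nat.card V : ℝ) ^ ((i : ℝ) / k) := by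
  classical
  obtain ⟨A, hA⟩ : ∃ A : ℝ, A = max 1 (2 / (η * ε)) := ⟨_, rfl⟩
  have hA1 : 1 ≤ A := hA ▸ le_max_left _ _
  have hA2 : 2 / (η * ε) ≤ A := hA ▸ le_max_right _ _
  obtain ⟨c, hc⟩ : ∃ c : ℝ, c = C4 k := ⟨_, rfl⟩
  have hc1 : 1 ≤ c := by
    rw [hc]
    have : 1 ≤ C4 k := by unfold C4; omega
    exact_mod_cast this
  have hk0 : (0 : ℝ) < k := by exact_mod_cast hk
  obtain ⟨n₀, hn₀⟩ : ∃ n₀ : ℕ, ∀ n : ℕ, n₀ ≤ n → 1 ≤ η * ε / 2 * (n : ℝ) ^ (1 / (k : ℝ)) := by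
    have h1 := (tendsto_rpow_atTop (show (0 : ℝ) < 1 / (k : ℝ) by positivity)).comp
      tendsto_natCast_atTop_atTop
    have h2 := (Filter.Tendsto.const_mul_atTop (show (0 : ℝ) < η * ε / 2 by positivity) h1)
    obtain ⟨n₀, h3⟩ := Filter.eventually_atTop.1 (h2.eventually_ge_atTop (1 : ℝ))
    exact ⟨n₀, fun n hn => h3 n hn⟩
  refine ⟨(A * c) ^ k, by positivity, n₀ + 1, fun V _ G hG hn he => ?_⟩
  obtain ⟨n, hnn⟩ : ∃ n, n = Nat.card V := ⟨_, rfl⟩
  rw [← hnn] at hn he ⊢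
  have hn0 : (0 : ℝ) < n := by exact_mod_cast (by omega : 0 < n)
  have hbig := hn₀ n (by omega)
  obtain ⟨P, hP⟩ : ∃ P : ℝ, P = (n : ℝ) ^ (1 / (k : ℝ)) := ⟨_, rfl⟩
  have hP0 : 0 < P := by rw [hP]; positivity
  have hPi : ∀ i : ℕ, (n : ℝ) ^ ((i : ℝ) / k) = P ^ i := by
    intro i
    rw [hP, ← Real.rpow_natCast, ← Real.rpow_mul hn0.le]
    congr 1
    ring
  have hPk : P ^ k = n := by
    rw [← hPi, div_self hk0.ne', Real.rpow_one]
  rw [← hP] at hbig ⊢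
  obtain ⟨D, hD⟩ : ∃ D : ℕ, D = ⌊η * ε * P⌋₊ := ⟨_, rfl⟩
  have hD1 : (D : ℝ) ≤ η * ε * P := by rw [hD]; exact Nat.floor_le (by positivity)
  have hD2 : η * ε * P < D + 1 := by rw [hD]; exact Nat.lt_floor_add_one _
  have hDP : P ≤ A * D := by
    have h1 : η * ε / 2 * P ≤ D := by linarith
    have h3 : 1 ≤ η * ε / 2 * A := by
      have := mul_le_mul_of_nonneg_left hA2 (show 0 ≤ η * ε / 2 by positivity)
      have h4 : η * ε / 2 * (2 / (η * ε)) = 1 := by field_simp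
      linarith
    calc P = 1 * P := (one_mul P).symm
      _ ≤ (η * ε / 2 * A) * P := mul_le_mul_of_nonneg_right h3 hP0.le
      _ = A * (η * ε / 2 * P) := by ring
      _ ≤ A * D := mul_le_mul_of_nonneg_left h1 (by positivity)
  have hDpos : 1 ≤ D := by
    have : (0 : ℝ) < D := by
      by_contra h
      push Not at h
      have : A * (D : ℝ) ≤ 0 := mul_nonpos_of_nonneg_of_nonpos (by positivity) h
      linarith
    exact_mod_cast this
  have hAc : 1 ≤ A * c := by nlinarith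
  -- from `x D ^ m ≤ c ^ m n` to `x ≤ C P ^ (k - m)`
  have up : ∀ (x m : ℕ), m ≤ k → x * D ^ m ≤ C4 k ^ m * n → (x : ℝ) ≤ (A * c) ^ k * P ^ (k - m) := by
    intro x m hm h
    have h1 : (x : ℝ) * (D : ℝ) ^ m ≤ c ^ m * n := by rw [hc]; exact_mod_cast h
    have h2 : P ^ m ≤ A ^ m * (D : ℝ) ^ m := by
      rw [← mul_pow]
      exact pow_le_pow_left₀ hP0.le hDP m
    have h3 : (x : ℝ) * P ^ m ≤ (A * c) ^ m * P ^ (k - m) * P ^ m := by
      calc (x : ℝ) * P ^ m ≤ x * (A ^ m * (D : ℝ) ^ m) :=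
            mul_le_mul_of_nonneg_left h2 (Nat.cast_nonneg _)
        _ = A ^ m * (x * (D : ℝ) ^ m) := by ring
        _ ≤ A ^ m * (c ^ m * n) := mul_le_mul_of_nonneg_left h1 (by positivity)
        _ = (A * c) ^ m * P ^ k := by rw [hPk]; ring
        _ = (A * c) ^ m * P ^ (k - m) * P ^ m := by
          rw [mul_assoc, ← pow_add, Nat.sub_add_cancel hm]
    have h4 := le_of_mul_le_mul_right h3 (pow_pos hP0 m)
    refine h4.trans (mul_le_mul_of_nonneg_right ?_ (by positivity))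
    exact pow_le_pow_right₀ hAc hm
  have low : ∀ (x i : ℕ), i ≤ k → D ^ i ≤ C4 k ^ i * x → P ^ i ≤ (A * c) ^ k * (x : ℝ) := by
    intro x i hi h
    have h1 : (D : ℝ) ^ i ≤ c ^ i * x := by rw [hc]; exact_mod_cast h
    calc P ^ i ≤ (A * D) ^ i := pow_le_pow_left₀ hP0.le hDP i
      _ = A ^ i * (D : ℝ) ^ i := mul_pow _ _ _
      _ ≤ A ^ i * (c ^ i * x) := mul_le_mul_of_nonneg_left h1 (by positivity)
      _ = (A * c) ^ i * x := by ring
      _ ≤ _ := mul_le_mul_of_nonneg_right (pow_le_pow_right₀ hAc hi) (Nat.cast_nonneg _)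
  obtain ⟨K, h1, h2, h3, h4⟩ := main_nat k hk V G hG D hDpos
  rw [← hnn] at h1 h3 h4
  refine ⟨K, ?_, ?_, ?_, ?_⟩
  · have h5 : (G.edgeSet.ncard : ℝ) ≤ (G.induce K).edgeSet.ncard + D * n := by exact_mod_cast h1
    have h6 : (D : ℝ) * n ≤ η * G.edgeSet.ncard := by
      have h7 : (n : ℝ) ^ (1 + 1 / (k : ℝ)) = P * n := by
        rw [hP, ← Real.rpow_add_one hn0.ne']
        congr 1
        ring
      rw [h7] at he
      calc (D : ℝ) * n ≤ η * ε * P * n := mul_le_mul_of_nonneg_right hD1 hn0.le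
        _ = η * (ε * (P * n)) := by ring
        _ ≤ _ := mul_le_mul_of_nonneg_left he hη.le
    linarith
  · intro x
    have h5 : (D : ℝ) ≤ ((G.induce K).neighborSet x).ncard := by exact_mod_cast h2 x
    calc P ≤ A * D := hDP
      _ ≤ A * ((G.induce K).neighborSet x).ncard := mul_le_mul_of_nonneg_left h5 (by positivity)
      _ ≤ _ := mul_le_mul_of_nonneg_right ?_ (Nat.cast_nonneg _)
    calc A = A * 1 := (mul_one A).symm
      _ ≤ A * c := mul_le_mul_of_nonneg_left hc1 (by positivity)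
      _ = (A * c) ^ 1 := (pow_one _).symm
      _ ≤ (A * c) ^ k := pow_le_pow_right₀ hAc hk
  · intro x
    have h5 := up _ (k - 1) (Nat.sub_le _ _) (h3 x)
    rwa [show k - (k - 1) = 1 by omega, pow_one] at h5
  · intro x i hi
    obtain ⟨h5, h6⟩ := h4 x i hi
    rw [hPi]
    refine ⟨low _ i hi h5, ?_⟩
    have h7 := up _ (k - i) (Nat.sub_le _ _) h6
    rwa [show k - (k - i) = i by omega] at h7

end Pool.Agent.Q268.BG
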