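import Pool.Agent.Q268.BG.Level
import Pool.Agent.Q268.KC.Peel

/-!
# The growth of balls in graphs without `C_{2k}`: final forms
-/

set_option autoImplicit false

namespace Pool.Agent.Q268.BG

open Finset SimpleGraph Pool.Agent.Y384.EC

/-- The constant. -/
def C4 (k : ℕ) : ℕ := 4 * (k * CC k + 1)

theorem iter (k D C0 : ℕ) (b : ℕ → ℕ) (h1 : ∀ i, i < k → D * b i ≤ C0 * b (i + 1) + D)
    (h2 : ∀ i, 1 ≤ i → 2 ≤ b i) (i : ℕ) (hi : 1 ≤ i) (m : ℕ) (hm : i + m ≤ k) :
    b i * D ^ m ≤ (2 * C0) ^ m * b (i + m) := by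
  induction m with
  | zero => simp
  | succ m ih =>
    have h3 := ih (by omega)
    have h4 := h1 (i + m) (by omega)
    have h5 := h2 (i + m) (by omega)
    have h6 : D * b (i + m) ≤ 2 * C0 * b (i + m + 1) := by
      have h7 : D * 2 ≤ D * b (i + m) := Nat.mul_le_mul_left _ h5
      have h8 : D * b (i + m) ≤ C0 * b (i + m + 1) + D := h4
      have h9 : 2 * C0 * b (i + m + 1) = 2 * (C0 * b (i + m + 1)) := by ring
      omega
    calc b i * D ^ (m + 1) = b i * D ^ m * D := by ring
      _ ≤ (2 * C0) ^ m * b (i + m) * D := Nat.mul_le_mul_right _ h3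
      _ = (2 * C0) ^ m * (D * b (i + m)) := by ring
      _ ≤ (2 * C0) ^ m * (2 * C0 * b (i + m + 1)) := Nat.mul_le_mul_left _ h6
      _ = (2 * C0) ^ (m + 1) * b (i + (m + 1)) := by rw [pow_succ, ← add_assoc]; ring

theorem ball_one {W : Type} [Finite W] (H : SimpleGraph W) (x : W) :
    (H.neighborSet x).ncard + 1 ≤ (nball H x 1).ncard := by
  have h1 : insert x (H.neighborSet x) ⊆ nball H x 1 := by
    intro w hw
    rcases Set.mem_insert_iff.1 hw with rfl | hw
    · show H.edist w w ≤ _
      rw [edist_self]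
      exact bot_le
    · have : H.Adj x w := hw
      show H.edist x w ≤ _
      rw [edist_eq_one_iff_adj.2 this]
      exact le_rfl
  have h2 := Set.ncard_le_ncard h1 (Set.toFinite _)
  have h3 : x ∉ H.neighborSet x := fun h => (H.ne_of_adj h) rfl
  rwa [Set.ncard_insert_of_notMem h3 (Set.toFinite _)] at h2

theorem g1 {W : Type} [Finite W] (H : SimpleGraph W) (k : ℕ)
    (hH : (cycleGraph (2 * k)).Free H) (x : W) (D : ℕ)
    (hD : ∀ v, v ≠ x → D ≤ (H.neighborSet v).ncard) (hx : 1 ≤ (H.neighborSet x).ncard)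
    (i : ℕ) (hi : 1 ≤ i) (m : ℕ) (hm : i + m ≤ k) :
    (nball H x i).ncard * D ^ m ≤ C4 k ^ m * (nball H x (i + m)).ncard := by
  have := Fintype.ofFinite W
  have h := iter k D (2 * (k * CC k + 1)) (fun i => (nball H x i).ncard)
    (fun i hi => growth H k hH x D hD i hi) (fun i hi => by
      have h1 := ball_one H x
      have h2 := Set.ncard_le_ncard (nball_mono H x hi) (Set.toFinite _)
      omega) i hi m hm
  have h2 : 2 * (2 * (k * CC k + 1)) = C4 k := by
    unfold C4
    ring
  rw [h2] at h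
  exact h

theorem free_induce {V : Type} {G : SimpleGraph V} {k : ℕ} (hG : (cycleGraph (2 * k)).Free G)
    (K : Set V) : (cycleGraph (2 * k)).Free (G.induce K) := by
  intro hc
  exact hG (hc.trans ⟨(SimpleGraph.Embedding.induce _).toCopy⟩)

theorem nbr_induce {V : Type} (G : SimpleGraph V) (K : Set V) (v : K) :
    ((G.induce K).neighborSet v).ncard = {w : V | w ∈ K ∧ G.Adj v w}.ncard := by
  rw [← Set.ncard_image_of_injective _ Subtype.val_injective]
  congr 1
  ext w
  simp only [Set.mem_image, mem_neighborSet, Set.mem_ofPred_eq]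
  constructor
  · rintro ⟨y, hy, rfl⟩
    exact ⟨y.2, hy⟩
  · rintro ⟨h1, h2⟩
    exact ⟨⟨w, h1⟩, h2, rfl⟩

theorem ball_zero {W : Type} (H : SimpleGraph W) (x : W) : (nball H x 0).ncard = 1 := by
  have : nball H x 0 = {x} := by
    ext w
    rw [Set.mem_singleton_iff]
    constructor
    · intro hw
      have h1 : H.edist x w ≤ (0 : ℕ) := hw
      have h2 : H.edist x w = 0 := le_antisymm (by simpa using h1) bot_le
      exact (edist_eq_zero_iff.1 h2).symm
    · rintro rfl
      show H.edist w w ≤ _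
      rw [edist_self]
      exact bot_le
  rw [this, Set.ncard_singleton]

/-- Balls in graphs without `C_{2k}` after the removal of vertices of degree less than `D`. -/
theorem main_nat (k : ℕ) (hk : 1 ≤ k) (V : Type) [Finite V] (G : SimpleGraph V)
    (hG : (cycleGraph (2 * k)).Free G) (D : ℕ) (hD1 : 1 ≤ D) :
    ∃ K : Set V, G.edgeSet.ncard ≤ (G.induce K).edgeSet.ncard + D * Nat.card V ∧
      (∀ x : K, D ≤ ((G.induce K).neighborSet x).ncard) ∧
      (∀ x : V, {w : V | w ∈ K ∧ G.Adj x w}.ncard * D ^ (k - 1) ≤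
        C4 k ^ (k - 1) * Nat.card V) ∧
      ∀ (x : K) (i : ℕ), i ≤ k → D ^ i ≤ C4 k ^ i * (nball (G.induce K) x i).ncard ∧
        (nball (G.induce K) x i).ncard * D ^ (k - i) ≤ C4 k ^ (k - i) * Nat.card V := by
  classical
  have := Fintype.ofFinite V
  obtain ⟨K, X, h1, h2, h3⟩ := Pool.Agent.Q268.KC.peel_edges G
    (fun T v => #(Pool.Agent.Q268.KC.nb G T v) < D)
  have hC : 1 ≤ C4 k := by unfold C4; omega
  have hKd : ∀ v ∈ (K : Set V), D ≤ {w : V | w ∈ (K : Set V) ∧ G.Adj v w}.ncard := by
    intro v hv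
    refine (not_lt.1 (h1 v (mem_coe.1 hv))).trans (le_of_eq ?_)
    rw [← Set.ncard_coe_finset]
    congr 1
    ext w
    simp [Pool.Agent.Q268.KC.nb]
  have hKx : ∀ x : (K : Set V), D ≤ ((G.induce (K : Set V)).neighborSet x).ncard := by
    intro x
    rw [nbr_induce]
    exact hKd x x.2
  refine ⟨(K : Set V), ?_, hKx, ?_, ?_⟩
  · refine h3.trans (Nat.add_le_add_left ?_ _)
    refine (sum_le_card_nsmul _ _ D (fun v hv => ?_)).trans ?_
    · exact (h2 v (mem_compl.1 hv)).2.le
    · rw [smul_eq_mul, mul_comm, Nat.card_eq_fintype_card]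
      exact Nat.mul_le_mul_left _ (card_le_univ _)
  · intro x
    rcases Nat.eq_zero_or_pos {w : V | w ∈ (K : Set V) ∧ G.Adj x w}.ncard with h0 | h0
    · rw [h0, zero_mul]
      exact Nat.zero_le _
    -- the graph induced by `K` and `x`
    have hx : x ∈ insert x (K : Set V) := Set.mem_insert _ _
    have h4 : ∀ v : (insert x (K : Set V) : Set V), v ≠ ⟨x, hx⟩ →
        D ≤ ((G.induce (insert x (K : Set V))).neighborSet v).ncard := by
      rintro ⟨v, hv⟩ hvx
      rw [nbr_induce]
      have hvK : v ∈ (K : Set V) := by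
        rcases Set.mem_insert_iff.1 hv with h | h
        · exact absurd (Subtype.ext h) hvx
        · exact h
      refine (hKd v hvK).trans (Set.ncard_le_ncard ?_ (Set.toFinite _))
      rintro w ⟨h5, h6⟩
      exact ⟨Set.mem_insert_of_mem _ h5, h6⟩
    have h5 : {w : V | w ∈ (K : Set V) ∧ G.Adj x w}.ncard ≤
        ((G.induce (insert x (K : Set V))).neighborSet ⟨x, hx⟩).ncard := by
      rw [nbr_induce]
      refine Set.ncard_le_ncard ?_ (Set.toFinite _)
      rintro w ⟨h5, h6⟩
      exact ⟨Set.mem_insert_of_mem _ h5, h6⟩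
    have h6 := g1 (G.induce (insert x (K : Set V))) k (free_induce hG _) ⟨x, hx⟩ D h4
      (h0.trans_le h5) 1 le_rfl (k - 1) (by omega)
    have h7 := ball_one (G.induce (insert x (K : Set V))) ⟨x, hx⟩
    have h8 : (nball (G.induce (insert x (K : Set V))) ⟨x, hx⟩ (1 + (k - 1))).ncard ≤
        Nat.card V := by
      refine (Set.ncard_le_card _).trans ?_
      exact Nat.card_le_card_of_injective _ Subtype.val_injective
    calc {w : V | w ∈ (K : Set V) ∧ G.Adj x w}.ncard * D ^ (k - 1) ≤
        (nball (G.induce (insert x (K : Set V))) ⟨x, hx⟩ 1).ncard * D ^ (k - 1) :=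
          Nat.mul_le_mul_right _ (by omega)
      _ ≤ _ := h6
      _ ≤ _ := Nat.mul_le_mul_left _ h8
  · intro x i hi
    have hdeg : ∀ v : (K : Set V), v ≠ x → D ≤ ((G.induce (K : Set V)).neighborSet v).ncard :=
      fun v _ => hKx v
    have hx1 : 1 ≤ ((G.induce (K : Set V)).neighborSet x).ncard := hD1.trans (hKx x)
    have h7 := ball_one (G.induce (K : Set V)) x
    have hDx := hKx x
    rcases Nat.eq_zero_or_pos i with rfl | hi0
    · refine ⟨?_, ?_⟩
      · rw [pow_zero, pow_zero, ball_zero, one_mul]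
      · rw [ball_zero, one_mul, Nat.sub_zero]
        have h8 := g1 (G.induce (K : Set V)) k (free_induce hG _) x D hdeg hx1 1 le_rfl (k - 1)
          (by omega)
        have h9 : (nball (G.induce (K : Set V)) x (1 + (k - 1))).ncard ≤ Nat.card V :=
          (Set.ncard_le_card _).trans (Nat.card_le_card_of_injective _ Subtype.val_injective)
        have hk' : k = k - 1 + 1 := by omega
        calc D ^ k = D * D ^ (k - 1) := by
              conv_lhs => rw [hk']
              ring
          _ ≤ (nball (G.induce (K : Set V)) x 1).ncard * D ^ (k - 1) :=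
            Nat.mul_le_mul_right _ (by omega)
          _ ≤ _ := h8
          _ ≤ C4 k ^ (k - 1) * Nat.card V := Nat.mul_le_mul_left _ h9
          _ ≤ C4 k ^ k * Nat.card V :=
            Nat.mul_le_mul_right _ (Nat.pow_le_pow_right hC (Nat.sub_le _ _))
    · refine ⟨?_, ?_⟩
      · have h8 := g1 (G.induce (K : Set V)) k (free_induce hG _) x D hdeg hx1 1 le_rfl (i - 1)
          (by omega)
        have hi' : i = i - 1 + 1 := by omega
        rw [show 1 + (i - 1) = i by omega] at h8
        calc D ^ i = D * D ^ (i - 1) := by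
              conv_lhs => rw [hi']
              ring
          _ ≤ (nball (G.induce (K : Set V)) x 1).ncard * D ^ (i - 1) :=
            Nat.mul_le_mul_right _ (by omega)
          _ ≤ _ := h8
          _ ≤ _ := Nat.mul_le_mul_right _ (Nat.pow_le_pow_right hC (Nat.sub_le _ _))
      · have h8 := g1 (G.induce (K : Set V)) k (free_induce hG _) x D hdeg hx1 i hi0 (k - i)
          (by omega)
        refine h8.trans (Nat.mul_le_mul_left _ ?_)
        exact (Set.ncard_le_card _).trans
          (Nat.card_le_card_of_injective _ Subtype.val_injective)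

end Pool.Agent.Q268.BG
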