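import Pool.Agent.Y384.EC.Walks

/-!
# The growth of balls in graphs without `C_{2k}`
-/

set_option autoImplicit false

namespace Pool.Agent.Q268.BG

open Finset SimpleGraph Pool.Agent.Y384.EC

/-- `ℓ` is the distance from `x`. -/
structure Lev {W : Type} (H : SimpleGraph W) (x : W) (ℓ : W → ℕ) : Prop where
  zero : ∀ w, ℓ w = 0 ↔ w = x
  parent : ∀ w j, ℓ w = j + 1 → ∃ w', H.Adj w w' ∧ ℓ w' = j
  adj : ∀ u v, H.Adj u v → ℓ v ≤ ℓ u + 1

theorem Lev.chain {W : Type} {H : SimpleGraph W} {x : W} {ℓ : W → ℕ} (h : Lev H x ℓ) :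
    ∀ (i : ℕ) (w : W), i ≤ ℓ w → ∃ (y : W) (q : H.Walk w y), q.IsPath ∧ q.length = i ∧
      (∀ z ∈ q.support, ℓ z ≤ ℓ w) ∧ ℓ y + i = ℓ w := by
  intro i
  induction i with
  | zero =>
    intro w _
    exact ⟨w, Walk.nil, Walk.IsPath.nil, rfl, by simp, rfl⟩
  | succ i ih =>
    intro w hw
    obtain ⟨j, hj⟩ : ∃ j, ℓ w = j + 1 := ⟨ℓ w - 1, by omega⟩
    obtain ⟨w', hadj, hw'⟩ := h.parent w j hj
    obtain ⟨y, q, hq1, hq2, hq3, hq4⟩ := ih w' (by omega)
    refine ⟨y, Walk.cons hadj q, ?_, ?_, ?_, by omega⟩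
    · rw [Walk.cons_isPath_iff]
      refine ⟨hq1, fun hmem => ?_⟩
      have := hq3 w hmem
      omega
    · rw [Walk.length_cons, hq2]
    · intro z hz
      rw [Walk.support_cons, List.mem_cons] at hz
      rcases hz with rfl | hz
      · exact le_rfl
      · have := hq3 z hz
        omega

/-- The edges `u v` with `ℓ u < k` and `ℓ u ≤ ℓ v`. -/
theorem Lev.count {W : Type} [Fintype W] {H : SimpleGraph W} {x : W} {ℓ : W → ℕ}
    (h : Lev H x ℓ) (k : ℕ) (hG : (cycleGraph (2 * k)).Free H) :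
    {p : W × W | H.Adj p.1 p.2 ∧ ℓ p.1 < k ∧ ℓ p.1 ≤ ℓ p.2}.ncard ≤
      (k * CC k + 1) * Fintype.card W := by
  classical
  -- the maps
  have hg : ∀ (i : ℕ) (v : W), ∃ y, (ℓ v = i → y = x ∧ Joined H i v y) ∧
      (ℓ v = i + 1 → H.Adj x y ∧ Joined H i v y) := by
    intro i v
    by_cases h1 : ℓ v = i
    · obtain ⟨y, q, hq1, hq2, _, hq4⟩ := h.chain i v h1.ge
      have hy : y = x := (h.zero y).1 (by omega)
      exact ⟨y, fun _ => ⟨hy, q, hq1, hq2⟩, fun h2 => by omega⟩
    · by_cases h2 : ℓ v = i + 1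
      · obtain ⟨y, q, hq1, hq2, _, hq4⟩ := h.chain i v (by omega)
        obtain ⟨y', hadj, hy'⟩ := h.parent y 0 (by omega)
        rw [h.zero] at hy'
        subst hy'
        exact ⟨y, fun h3 => by omega, fun _ => ⟨hadj.symm, q, hq1, hq2⟩⟩
      · exact ⟨x, fun h3 => absurd h3 h1, fun h3 => absurd h3 h2⟩
  choose g hg1 hg2 using hg
  have hsub : {p : W × W | H.Adj p.1 p.2 ∧ ℓ p.1 < k ∧ ℓ p.1 ≤ ℓ p.2} ⊆
      (⋃ i ∈ Finset.Ico 1 k, pairs H i i (fun _ => x) (g i)) ∪ {p : W × W | p.1 = x} := by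
    rintro ⟨u, v⟩ ⟨hadj, hu, huv⟩
    simp only at hadj hu huv
    rcases Nat.eq_zero_or_pos (ℓ u) with h0 | h0
    · right
      exact (h.zero u).1 h0
    · left
      simp only [Set.mem_iUnion, Finset.mem_Ico]
      refine ⟨ℓ u, ⟨h0, hu⟩, hadj, ?_, ?_, ?_⟩
      · rcases Nat.eq_or_lt_of_le huv with h1 | h1
        · left
          exact ((hg1 (ℓ u) v h1.symm).1).symm
        · right
          have := h.adj u v hadj
          exact (hg2 (ℓ u) v (by omega)).1
      · obtain ⟨y, q, hq1, hq2, _, hq4⟩ := h.chain (ℓ u) u le_rfl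
        have hy : y = x := (h.zero y).1 (by omega)
        subst hy
        exact ⟨q, hq1, hq2⟩
      · rcases Nat.eq_or_lt_of_le huv with h1 | h1
        · exact (hg1 (ℓ u) v h1.symm).2
        · have := h.adj u v hadj
          exact (hg2 (ℓ u) v (by omega)).2
  refine (Set.ncard_le_ncard hsub (Set.toFinite _)).trans ((Set.ncard_union_le _ _).trans ?_)
  have h1 : (⋃ i ∈ Finset.Ico 1 k, pairs H i i (fun _ => x) (g i)).ncard ≤
      k * (CC k * Fintype.card W) := by
    have h2 : (⋃ i ∈ Finset.Ico 1 k, pairs H i i (fun _ => x) (g i)).ncard ≤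
        ∑ i ∈ Finset.Ico 1 k, (pairs H i i (fun _ => x) (g i)).ncard := by
      exact Finset.set_ncard_biUnion_le _ _
    refine h2.trans ((Finset.sum_le_card_nsmul _ _ (CC k * Fintype.card W) ?_).trans ?_)
    · intro i hi
      rw [Finset.mem_Ico] at hi
      have := walks k i i hi.1 hi.1 hi.2 hi.2 (by omega) H hG (fun _ => x) (g i)
      rwa [Nat.card_eq_fintype_card] at this
    · rw [smul_eq_mul, Nat.card_Ico]
      exact Nat.mul_le_mul_right _ (Nat.sub_le _ _)
  have h2 : {p : W × W | p.1 = x}.ncard ≤ Fintype.card W := by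
    rw [← Nat.card_eq_fintype_card, ← Nat.card_coe_set_eq]
    refine Nat.card_le_card_of_injective (fun p => p.1.2) ?_
    rintro ⟨⟨a, b⟩, ha⟩ ⟨⟨c, d⟩, hc⟩ hbd
    have ha' : a = x := ha
    have hc' : c = x := hc
    simp only at hbd
    subst ha' hbd
    simp only [Subtype.mk.injEq, Prod.mk.injEq, and_true]
    exact hc'.symm
  calc _ ≤ k * (CC k * Fintype.card W) + Fintype.card W := Nat.add_le_add h1 h2
    _ = _ := by ring

/-- The closed ball of radius `i` around `x`. -/
def nball {V : Type} (G : SimpleGraph V) (x : V) (i : ℕ) : Set V := {w | G.edist x w ≤ i}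

theorem nball_mono {V : Type} (G : SimpleGraph V) (x : V) {i j : ℕ} (h : i ≤ j) :
    nball G x i ⊆ nball G x j := by
  intro w hw
  have h1 : G.edist x w ≤ i := hw
  have h2 : (i : ℕ∞) ≤ j := by exact_mod_cast h
  exact h1.trans h2

theorem reach {V : Type} {G : SimpleGraph V} {x : V} {i : ℕ} {w : V} (hw : w ∈ nball G x i) :
    G.Reachable x w ∧ G.dist x w ≤ i := by
  have h1 : G.edist x w ≠ ⊤ := ne_top_of_le_ne_top (ENat.natCast_ne_top i) hw
  have h2 := edist_ne_top_iff_reachable.1 h1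
  refine ⟨h2, ?_⟩
  have h3 := h2.coe_dist_eq_edist
  have h4 : ((G.dist x w : ℕ) : ℕ∞) ≤ i := by rw [h3]; exact hw
  exact_mod_cast h4

theorem mem_nball {V : Type} {G : SimpleGraph V} {x : V} {i : ℕ} {w : V}
    (h1 : G.Reachable x w) (h2 : G.dist x w ≤ i) : w ∈ nball G x i := by
  have h3 := h1.coe_dist_eq_edist
  show G.edist x w ≤ i
  rw [← h3]
  exact_mod_cast h2

theorem nball_adj {V : Type} {G : SimpleGraph V} {x : V} {i : ℕ} {u v : V}
    (hu : u ∈ nball G x i) (huv : G.Adj u v) : v ∈ nball G x (i + 1) := by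
  obtain ⟨h1, h2⟩ := reach hu
  obtain ⟨p, hp⟩ := h1.exists_walk_length_eq_dist
  refine mem_nball (h1.trans huv.reachable) ?_
  have := dist_le (p.concat huv)
  rw [Walk.length_concat, hp] at this
  omega

theorem lev_ball {V : Type} (G : SimpleGraph V) (x : V) (L : ℕ) (hx : x ∈ nball G x L) :
    Lev (G.induce (nball G x L)) ⟨x, hx⟩ (fun w => G.dist x w) := by
  refine ⟨?_, ?_, ?_⟩
  · rintro ⟨w, hw⟩
    obtain ⟨h1, _⟩ := reach hw
    simp only [Subtype.mk.injEq]
    rw [h1.dist_eq_zero_iff]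
    exact eq_comm
  · rintro ⟨w, hw⟩ j hj
    obtain ⟨h1, h2⟩ := reach hw
    simp only at hj
    obtain ⟨p, hp⟩ := h1.symm.exists_walk_length_eq_dist
    rw [dist_comm, hj] at hp
    cases p with
    | nil => simp at hp
    | @cons _ w' _ hadj q =>
      rw [Walk.length_cons] at hp
      have h3 : G.dist x w' ≤ j := by
        rw [dist_comm]
        exact (dist_le q).trans (by omega)
      have h4 : G.Reachable x w' := q.reachable.symm
      have h5 : w' ∈ nball G x L := mem_nball h4 (by omega)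
      refine ⟨⟨w', h5⟩, hadj, ?_⟩
      obtain ⟨p', hp'⟩ := h4.exists_walk_length_eq_dist
      have := dist_le (p'.concat hadj.symm)
      rw [Walk.length_concat, hp'] at this
      simp only
      omega
  · rintro ⟨u, hu⟩ ⟨v, hv⟩ huv
    obtain ⟨h1, _⟩ := reach hu
    obtain ⟨p, hp⟩ := h1.exists_walk_length_eq_dist
    have huv' : G.Adj u v := huv
    have := dist_le (p.concat huv')
    rw [Walk.length_concat, hp] at this
    exact this

/-- The growth of balls. -/
theorem growth {V : Type} [Fintype V] (G : SimpleGraph V) (k : ℕ)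
    (hG : (cycleGraph (2 * k)).Free G) (x : V) (D : ℕ)
    (hD : ∀ v, v ≠ x → D ≤ (G.neighborSet v).ncard) (i : ℕ) (hi : i < k) :
    D * (nball G x i).ncard ≤ 2 * (k * CC k + 1) * (nball G x (i + 1)).ncard + D := by
  classical
  have hx : x ∈ nball G x (i + 1) := by
    show G.edist x x ≤ _
    rw [edist_self]
    exact bot_le
  have hlev := lev_ball G x (i + 1) hx
  have hfree : (cycleGraph (2 * k)).Free (G.induce (nball G x (i + 1))) := by
    intro hc
    exact hG (hc.trans ⟨(SimpleGraph.Embedding.induce _).toCopy⟩)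
  have hcount := hlev.count k hfree
  rw [← Nat.card_eq_fintype_card, Nat.card_coe_set_eq] at hcount
  -- ordered pairs starting in the smaller ball
  have h1 : {p : V × V | p.1 ∈ nball G x i ∧ G.Adj p.1 p.2}.ncard ≤
      2 * {p : nball G x (i + 1) × nball G x (i + 1) |
        (G.induce (nball G x (i + 1))).Adj p.1 p.2 ∧ G.dist x p.1 < k ∧
          G.dist x p.1 ≤ G.dist x p.2}.ncard := by
    have h2 : {p : V × V | p.1 ∈ nball G x i ∧ G.Adj p.1 p.2} ⊆
        (fun p : nball G x (i + 1) × nball G x (i + 1) => ((p.1 : V), (p.2 : V))) ''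
          {p | (G.induce (nball G x (i + 1))).Adj p.1 p.2 ∧ G.dist x p.1 < k ∧
          G.dist x p.1 ≤ G.dist x p.2} ∪
        (fun p : nball G x (i + 1) × nball G x (i + 1) => ((p.2 : V), (p.1 : V))) ''
          {p | (G.induce (nball G x (i + 1))).Adj p.1 p.2 ∧ G.dist x p.1 < k ∧
          G.dist x p.1 ≤ G.dist x p.2} := by
      rintro ⟨u, v⟩ ⟨hu, huv⟩
      simp only at hu huv
      have hv : v ∈ nball G x (i + 1) := nball_adj hu huv
      have hu' : u ∈ nball G x (i + 1) := nball_mono G x (Nat.le_succ i) hu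
      have hui := (reach hu).2
      rcases le_total (G.dist x u) (G.dist x v) with h3 | h3
      · left
        exact ⟨(⟨u, hu'⟩, ⟨v, hv⟩), ⟨huv, lt_of_le_of_lt hui hi, h3⟩, rfl⟩
      · right
        exact ⟨(⟨v, hv⟩, ⟨u, hu'⟩), ⟨huv.symm, lt_of_le_of_lt (h3.trans hui) hi, h3⟩, rfl⟩
    refine (Set.ncard_le_ncard h2 (Set.toFinite _)).trans ((Set.ncard_union_le _ _).trans ?_)
    have h3 := Set.ncard_image_le (f := fun p : nball G x (i + 1) × nball G x (i + 1) =>
      ((p.1 : V), (p.2 : V))) (s := {p | (G.induce (nball G x (i + 1))).Adj p.1 p.2 ∧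
        G.dist x p.1 < k ∧ G.dist x p.1 ≤ G.dist x p.2}) (Set.toFinite _)
    have h4 := Set.ncard_image_le (f := fun p : nball G x (i + 1) × nball G x (i + 1) =>
      ((p.2 : V), (p.1 : V))) (s := {p | (G.induce (nball G x (i + 1))).Adj p.1 p.2 ∧
        G.dist x p.1 < k ∧ G.dist x p.1 ≤ G.dist x p.2}) (Set.toFinite _)
    omega
  -- many pairs
  have h2 : D * (nball G x i).ncard ≤
      {p : V × V | p.1 ∈ nball G x i ∧ G.Adj p.1 p.2}.ncard + D := by
    have h3 : D * (nball G x i \ {x}).ncard ≤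
        {p : V × V | p.1 ∈ nball G x i ∧ G.Adj p.1 p.2}.ncard := by
      rw [Set.ncard_eq_toFinset_card', Set.ncard_eq_toFinset_card']
      have h4 : ((nball G x i \ {x}).toFinset.sigma
          (fun v => (G.neighborSet v).toFinset)).card ≤
          {p : V × V | p.1 ∈ nball G x i ∧ G.Adj p.1 p.2}.toFinset.card := by
        refine card_le_card_of_injOn (fun q => (q.1, q.2)) ?_ ?_
        · rintro ⟨a, b⟩ hab
          simp only [coe_sigma, Set.mem_sigma_iff, mem_coe, Set.mem_toFinset,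
            mem_neighborSet] at hab
          simp only [mem_coe, Set.mem_toFinset]
          exact ⟨hab.1.1, hab.2⟩
        · rintro ⟨a, b⟩ _ ⟨c, d⟩ _ hab
          simp only [Prod.mk.injEq] at hab
          obtain ⟨rfl, rfl⟩ := hab
          rfl
      refine le_trans ?_ h4
      rw [card_sigma, mul_comm]
      refine card_nsmul_le_sum _ _ D fun v hv => ?_
      rw [Set.mem_toFinset] at hv
      rw [← Set.ncard_eq_toFinset_card']
      exact hD v hv.2
    have h4 : (nball G x i).ncard ≤ (nball G x i \ {x}).ncard + 1 := by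
      have := Set.ncard_le_ncard_sdiff_add_ncard (nball G x i) {x} (Set.toFinite _)
      rwa [Set.ncard_singleton] at this
    calc D * (nball G x i).ncard ≤ D * ((nball G x i \ {x}).ncard + 1) := Nat.mul_le_mul_left _ h4
      _ = D * (nball G x i \ {x}).ncard + D := by ring
      _ ≤ _ := Nat.add_le_add_right h3 _
  have h3 := h1.trans (Nat.mul_le_mul_left 2 hcount)
  rw [← mul_assoc] at h3
  exact h2.trans (Nat.add_le_add_right h3 _)

end Pool.Agent.Q268.BG
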